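import Pool.Agent.MWS.StmtsW

/-!
# Rows FEX and W1D of block MWS (helper49)
-/

namespace Pool.Agent.MWS.H49

open Pool.Agent.Helper14_MV Pool.Agent.Helper2_MV Pool.Agent.MVO Pool.Agent.MWL

/-- row W1D -/
theorem w1d (hD : DsvStmt) (hX : XcwStmt) : W1dStmt := fun β h => hD VW β hX.1 (hX.2 β h)

theorem rr_trans {β : FIC} {l m n : List ℕ} (h : RR β l m) (h' : RR β m n) : RR β l n :=
  β.trans h h'

theorem cb_eq (a b : ℕ → ℕ) (e : ℕ → Bool) (i : ℕ) (l : List ℕ) :
    cb a b e i l = Function.update (fun j => bl (hv (a j)) (hv (b j)) (e j)) i l := by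
  funext j
  by_cases h : j = i
  · subst h
    simp [cb]
  · simp [cb, h]

theorem bl_one (n q : ℕ) (e : Bool) (h : q = 2) : ∃ s t, bl n q e = s ++ [1, 1] ++ t := by
  subst h
  cases e with
  | true => exact ⟨[], List.replicate n 0, by simp [bl, List.replicate]⟩
  | false => exact ⟨List.replicate n 0, [], by simp [bl, List.replicate]⟩

theorem bl_zero (n q : ℕ) (e : Bool) (h : n = 2) : ∃ s t, bl n q e = s ++ [0, 0] ++ t := by
  subst h
  cases e with
  | true => exact ⟨List.replicate q 1, [], by simp [bl, List.replicate]⟩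
  | false => exact ⟨[], List.replicate q 1, by simp [bl, List.replicate]⟩

theorem hv_two {n : ℕ} (h : n ≠ 0) : hv n = 2 := by simp [hv, h]

/-- row FEX -/
theorem fex (hI : IdxStmt) : FexStmt := by
  intro β θ hβ hle hF k a b i hik hcase e
  have hI2 : ∀ (p q : List ℕ) (x : ℕ), (x ∈ p ∨ x ∈ q) →
      RR θ (p ++ x :: q) (p ++ ([x, x] ++ q)) := fun p q x hx =>
    hle _ _ (hI β hβ p q x hx 2 (by norm_num))
  unfold edg
  simp only [cb_eq, asm_update hik]
  generalize hC : (fun j => bl (hv (a j)) (hv (b j)) (e j)) = C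
  unfold FF2 at hF
  rcases hcase with ⟨j, hj, hbj⟩ | ⟨j, hij, hjk, haj⟩
  · obtain ⟨R, hR⟩ := pre_split (B := C) hj
    obtain ⟨s, t, hst⟩ := bl_one (hv (a j)) (hv (b j)) (e j) (hv_two hbj)
    have hCj : C j = s ++ [1, 1] ++ t := by rw [← hC]; exact hst
    have hpre : pre C i = (pre C j ++ s) ++ ([1, 1] ++ (t ++ R)) := by
      rw [hR, hCj]
      simp
    rw [hpre]
    generalize pre C j ++ s = p1
    generalize t ++ R = p2
    generalize suf C i (k - i) = q
    have h1 : RR θ (p1 ++ ([1, 1] ++ (p2 ++ ([0, 0, 1, 1] ++ q))))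
        (p1 ++ ([1, 1] ++ (p2 ++ ([0, 1, 1, 0, 1, 1] ++ q)))) := by
      have h := (RR.refl (β := θ) p1).append ((hF.sub (fun c => if c = 0 then [1] else
        if c = 2 then p2 ++ [0] else [0])).append (RR.refl (β := θ) q))
      simpa using h
    have h2 : RR θ (p1 ++ ([1, 1] ++ (p2 ++ ([0, 1, 0, 1, 1] ++ q))))
        (p1 ++ ([1, 1] ++ (p2 ++ ([0, 1, 1, 0, 1, 1] ++ q)))) := by
      have h := hI2 (p1 ++ ([1, 1] ++ (p2 ++ [0]))) ([0, 1, 1] ++ q) 1 (Or.inl (by simp))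
      simpa using h
    have h3 : RR θ (p1 ++ ([1, 1] ++ (p2 ++ ([0, 1, 0, 1] ++ q))))
        (p1 ++ ([1, 1] ++ (p2 ++ ([0, 1, 0, 1, 1] ++ q)))) := by
      have h := hI2 (p1 ++ ([1, 1] ++ (p2 ++ [0, 1, 0]))) q 1 (Or.inl (by simp))
      simpa using h
    have h4 := rr_trans h1 (rr_trans h2.symm h3.symm)
    simpa using h4
  · obtain ⟨R, R', hR⟩ := suf_split (B := C) (r := k - i) hij (by omega)
    obtain ⟨s, t, hst⟩ := bl_zero (hv (a j)) (hv (b j)) (e j) (hv_two haj)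
    have hCj : C j = s ++ [0, 0] ++ t := by rw [← hC]; exact hst
    have hsuf : suf C i (k - i) = (R ++ s) ++ ([0, 0] ++ (t ++ R')) := by
      rw [hR, hCj]
      simp
    rw [hsuf]
    generalize R ++ s = q1
    generalize t ++ R' = q2
    generalize pre C i = p
    have h1 : RR θ (p ++ ([0, 0, 1, 1] ++ (q1 ++ ([0, 0] ++ q2))))
        (p ++ ([0, 0, 1, 0, 0, 1] ++ (q1 ++ ([0, 0] ++ q2)))) := by
      have h := (RR.refl (β := θ) p).append ((hF.sub (fun c => if c = 0 then [0] else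
        if c = 2 then [1] else 1 :: q1)).append (RR.refl (β := θ) q2))
      simpa using h
    have h2 : RR θ (p ++ ([0, 1, 0, 0, 1] ++ (q1 ++ ([0, 0] ++ q2))))
        (p ++ ([0, 0, 1, 0, 0, 1] ++ (q1 ++ ([0, 0] ++ q2)))) := by
      have h := hI2 p ([1, 0, 0, 1] ++ (q1 ++ ([0, 0] ++ q2))) 0 (Or.inr (by simp))
      simpa using h
    have h3 : RR θ (p ++ ([0, 1, 0, 1] ++ (q1 ++ ([0, 0] ++ q2))))
        (p ++ ([0, 1, 0, 0, 1] ++ (q1 ++ ([0, 0] ++ q2)))) := by
      have h := hI2 (p ++ [0, 1]) ([1] ++ (q1 ++ ([0, 0] ++ q2))) 0 (Or.inl (by simp))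
      simpa using h
    have h4 := rr_trans h1 (rr_trans h2.symm h3.symm)
    simpa using h4

end Pool.Agent.MWS.H49
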